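import Pool.Agent.Lib.MP_ca1301_lc.Gates

/-! The reduction and its correctness. -/

namespace Pool.Agent.Lib.MP_ca1301_lc

open N487b59b3 N68a2faeb Pool.Agent.Lib.Complexity

def psub (P Q : Poly) : Poly := P ++ pneg Q

@[simp] theorem evalP_psub (y : ℕ → ℝ) (P Q : Poly) :
    evalP y (psub P Q) = evalP y P - evalP y Q := by simp [psub, sub_eq_add_neg]

theorem Good.sub {n k : ℕ} {P Q : Poly} (hP : Good n k P) (hQ : Good n k Q) :
    Good n k (psub P Q) := hP.append hQ.neg

/-- The equations of a gate as sparse polynomials in the given variables. -/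
def geqs0 (tag z : ℤ) (x r s q t u w : ℕ) : List Poly :=
  if tag = 0 then [psub (pvar r) (pvar x)] else if tag = 1 then [psub (pvar r) (pconst z)]
  else if tag = 2 then [psub (pvar r) (pvar u ++ pvar w)]
  else if tag = 3 then [psub (pvar r) (pmul (pvar u) (pvar w))]
  else if tag = 4 then [psub (pvar r) (pneg (pvar u))]
  else if tag = 5 then [psub (pvar r) (psub (pconst 1) (pmul (psub (pvar u) (pvar w)) (pvar s))),
    pmul (psub (pvar u) (pvar w)) (pvar r)]
  else if tag = 6 then [psub (pvar q) (pmul (pvar s) (pvar s)),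
    psub (pmul (psub (pvar w) (pvar u)) (psub (pvar w) (pvar u))) (pmul (pvar q) (pvar q)),
    psub (pvar r) (pmul (psub (pvar w) (pvar u) ++ pvar q) (pvar t)),
    pmul (psub (pvar w) (pvar u) ++ pvar q) (psub (pconst 1) (pvar r))]
  else if tag = 7 then [psub (pvar q) (pmul (pvar s) (pvar s)),
    psub (pmul (psub (pvar u) (pvar w)) (psub (pvar u) (pvar w))) (pmul (pvar q) (pvar q)),
    psub (pvar r) (psub (pconst 1) (pmul (psub (pvar u) (pvar w) ++ pvar q) (pvar t))),
    pmul (psub (pvar u) (pvar w) ++ pvar q) (pvar r)]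
  else if tag = 8 then [psub (pvar r) (psub (pconst 1) (pvar u))]
  else if tag = 9 then [psub (pvar r) (pmul (pvar u) (pvar w))]
  else [psub (pvar r) (psub (pvar u ++ pvar w) (pmul (pvar u) (pvar w)))]

theorem ite_iff {α : Type} {p : α → Prop} {c : Prop} [Decidable c] {a b : α} {A B : Prop}
    (h1 : p a ↔ A) (h2 : p b ↔ B) : p (if c then a else b) ↔ if c then A else B := by
  split_ifs <;> assumption

theorem ite_prop {α : Type} {p : α → Prop} {c : Prop} [Decidable c] {a b : α}
    (h1 : p a) (h2 : p b) : p (if c then a else b) := by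
  split_ifs <;> assumption

theorem geqs0_iff (y : ℕ → ℝ) (tag z : ℤ) (x r s q t u w : ℕ) :
    (∀ E ∈ geqs0 tag z x r s q t u w, evalP y E = 0) ↔
      E0 tag z (y x) (y r) (y s) (y q) (y t) (y u) (y w) := by
  unfold geqs0 E0
  repeat' refine ite_iff (p := fun L : List Poly => ∀ E ∈ L, evalP y E = 0) ?_ ?_
  all_goals simp only [List.forall_mem_cons, List.not_mem_nil, IsEmpty.forall_iff, implies_true,
    and_true, evalP_psub, evalP_pvar, evalP_pconst, evalP_pmul, evalP_pneg, evalP_append,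
    sub_eq_zero, Int.cast_one]

theorem good_geqs0 {n : ℕ} (tag z : ℤ) {x r s q t u w : ℕ} (hx : x < n) (hr : r < n) (hs : s < n)
    (hq : q < n) (ht : t < n) (hu : u < n) (hw : w < n) :
    ∀ E ∈ geqs0 tag z x r s q t u w, Good n 2 E := by
  unfold geqs0
  repeat' refine ite_prop (p := fun L : List Poly => ∀ E ∈ L, Good n 2 E) ?_ ?_
  all_goals
    simp only [List.forall_mem_cons, List.not_mem_nil, IsEmpty.forall_iff, implies_true, and_true]
    repeat' apply And.intro
    all_goals
    repeat' first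
      | exact Good.var (by assumption) (by omega)
      | exact Good.const _
      | apply Good.sub
      | apply Good.mul2
      | apply Good.neg
      | apply Good.append

/-- Position of the first occurrence of the variable `z`. -/
def first (l : List (ℤ × ℤ)) (z : ℤ) : ℕ :=
  (((l.zipIdx 0).find? fun e => decide (e.1 = (0, z))).map fun e => e.2).getD 0

theorem first_spec {l : List (ℤ × ℤ)} {z : ℤ} (h : (0, z) ∈ l) :
    l.getD (first l z) (0, 0) = (0, z) := by
  unfold first
  rcases h1 : (l.zipIdx 0).find? fun e => decide (e.1 = (0, z)) with _ | ⟨e, j⟩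
  · obtain ⟨i, hi, he⟩ := List.getElem_of_mem h
    rw [List.find?_eq_none] at h1
    exact absurd (h1 ((0, z), i) (List.mem_zipIdx_iff_getElem?.2 (by simp [hi, he]))) (by simp)
  · have h2 := List.find?_some h1
    have h3 := List.mem_zipIdx_iff_getElem?.1 (List.mem_of_find?_eq_some h1)
    simp only [decide_eq_true_eq] at h2 h3
    rw [h1]
    simp [List.getD_eq_getElem?_getD, h3, h2]

theorem first_lt {l : List (ℤ × ℤ)} (z : ℤ) (h : 0 < l.length) : first l z < l.length := by
  unfold first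
  rcases h1 : (l.zipIdx 0).find? fun e => decide (e.1 = (0, z)) with _ | ⟨e, j⟩
  · rw [h1]; exact h
  · have h3 := List.mem_zipIdx_iff_getElem?.1 (List.mem_of_find?_eq_some h1)
    rw [h1]
    exact (List.getElem?_eq_some_iff.1 h3).1

def geqs (l : List (ℤ × ℤ)) (g : Gate) : List Poly :=
  geqs0 g.2.1 g.2.2.1 (5 * first l g.2.2.1) (5 * g.1 + 1) (5 * g.1 + 2) (5 * g.1 + 3)
    (5 * g.1 + 4) (5 * g.2.2.2.1 + 1) (5 * g.2.2.2.2 + 1)

/-- The quadratic system attached to a list of symbols. -/
def sys (M : ℤ) (l : List (ℤ × ℤ)) : List Poly :=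
  (run M l).elim [pconst 1] fun s =>
    if s.2.map (fun c => c.1) = [true] then
      psub (pvar (5 * (s.2.headD (true, 0)).2 + 1)) (pconst 1) :: s.1.flatMap (geqs l)
    else [pconst 1]

theorem good_sys (M : ℤ) (l : List (ℤ × ℤ)) : ∀ E ∈ sys M l, Good (5 * l.length) 2 E := by
  unfold sys
  rcases h : run M l with _ | ⟨G, S⟩
  · simpa using Good.const 1
  obtain ⟨i1, i2, -⟩ := run_inv M l G S h
  simp only [Option.elim_some]
  split_ifs with hS
  · rcases S with _ | ⟨c, S⟩
    · simp at hS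
    have := i2 c (by simp)
    intro E hE
    rcases List.mem_cons.1 hE with rfl | hE
    · exact (Good.var (by simp; omega) (by omega)).sub (Good.const 1)
    · obtain ⟨g, hg, hE⟩ := List.mem_flatMap.1 hE
      have h1 := i1 g hg
      have h2 := first_lt g.2.2.1 (l := l) (by omega)
      exact good_geqs0 _ _ (by omega) (by omega) (by omega) (by omega) (by omega) (by omega)
        (by omega) E hE
  · simpa using Good.const 1

theorem E0_congr {tag z : ℤ} {x x' r s q t u w : ℝ} (h : tag = 0 → x = x')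
    (hE : E0 tag z x r s q t u w) : E0 tag z x' r s q t u w := by
  by_cases h0 : tag = 0
  · rwa [← h h0]
  · unfold E0 at hE ⊢
    rwa [if_neg h0] at hE ⊢

theorem sys_iff (m : ℕ) (l : List (ℤ × ℤ)) :
    (∃ y, ∀ E ∈ sys m l, evalP y E = 0) ↔ ∃ φ : Fm m, l = up φ.code ∧ ∃ x, φ.Holds x := by
  constructor
  · rintro ⟨y, hy⟩
    unfold sys at hy
    rcases h : run m l with _ | ⟨G, S⟩
    · simp [h] at hy
    rw [h, Option.elim_some] at hy
    split_ifs at hy with hS
    swap
    · simp at hy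
    obtain ⟨F, hl, hF⟩ := run_parse l G S h
    rw [show S.map Prod.fst = [true] from hS] at hF
    rcases F with _ | ⟨φ | φ, _ | ⟨c, F⟩⟩ <;> simp at hF
    rw [fcode, fcode, List.nil_append, Sum.elim_inr] at hl
    obtain ⟨q, new, e, hq⟩ := form_run φ 0 [] []
    rw [← hl, ← run, h, List.append_nil] at e
    obtain ⟨rfl, rfl⟩ := Prod.mk.inj (Option.some.inj e)
    refine ⟨φ, hl, fun i => y (5 * first l (i : ℕ)), ?_⟩
    have h1 := hq (fun z => y (5 * first l z)) y fun g hg =>
      (geqs0_iff y _ _ _ _ _ _ _ _ _).1 fun E hE =>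
        hy E (List.mem_cons_of_mem _ (List.mem_flatMap.2 ⟨g, hg, hE⟩))
    have h2 := hy _ List.mem_cons_self
    simp only [List.headD_cons, evalP_psub, evalP_pvar, evalP_pconst, Int.cast_one] at h2
    by_contra hn
    rw [if_neg hn] at h1
    linarith
  · rintro ⟨φ, hl, x, hx⟩
    obtain ⟨q, G, e, hq⟩ := form_run φ 0 [] []
    rw [← hl, ← run, List.append_nil] at e
    obtain ⟨i1, -, i3⟩ := run_inv m l _ _ e
    let X : ℤ → ℝ := fun z => ext x z.toNat
    obtain ⟨y, hy⟩ := i3 X
    let y' : ℕ → ℝ := fun i => if i % 5 = 0 then X (l.getD (i / 5) (0, 0)).2 else y i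
    have hy' : ∀ i, i % 5 ≠ 0 → y' i = y i := fun i hi => if_neg hi
    refine ⟨y', fun E hE => ?_⟩
    rw [sys, e, Option.elim_some, if_pos (by rfl)] at hE
    rcases List.mem_cons.1 hE with rfl | hE
    · have h1 := hq X y hy
      have h2 : (fun i : Fin m => X (i : ℕ)) = x := funext fun i => by simp [X, ext]
      rw [h2, if_pos hx] at h1
      simp [hy' _ (by omega : (5 * q + 1) % 5 ≠ 0), h1]
    · obtain ⟨g, hg, hE⟩ := List.mem_flatMap.1 hE
      refine (geqs0_iff y' _ _ _ _ _ _ _ _ _).2 ?_ E hE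
      rw [hy' (5 * g.1 + 1) (by omega), hy' (5 * g.1 + 2) (by omega), hy' (5 * g.1 + 3) (by omega),
        hy' (5 * g.1 + 4) (by omega), hy' (5 * g.2.2.2.1 + 1) (by omega),
        hy' (5 * g.2.2.2.2 + 1) (by omega)]
      refine E0_congr (fun h0 => ?_) (hy g hg)
      have h1 := (i1 g hg).2.2.2
      rw [h0] at h1
      simp only [y', Nat.mul_mod_right, if_true, Nat.mul_div_cancel_left _ (by omega : 0 < 5),
        first_spec h1]

/-- The reduction. -/
def red (w : List Bool) : List Bool :=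
  ((bitDecode w : Option (ℕ × List (ℕ × ℤ))).map Rep.up).elim (out 0 [pconst 1])
    fun p : ℤ × List (ℤ × ℤ) =>
      if w = bitEncode (Rep.down p : ℕ × List (ℕ × ℤ)) then out (5 * p.2.length) (sys p.1 p.2)
      else out 0 [pconst 1]

theorem up_injective : Function.Injective up :=
  List.map_injective_iff.2 fun a b h => by
    obtain ⟨h1, h2⟩ := Prod.mk.inj h
    exact Prod.ext (by exact_mod_cast h1) h2

theorem red_correct (w : List Bool) : ETR w = APP (red w) := by
  classical
  have hno : ¬ APP (out 0 [pconst 1]) = true := by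
    rw [app_out (by simpa using Good.const 1)]
    simp
  have hup : ∀ p : ℕ × List (ℕ × ℤ), Rep.up p = ((p.1 : ℤ), up p.2) := fun _ => rfl
  rw [Bool.eq_iff_iff, ETR, decide_eq_true_iff]
  constructor
  · rintro ⟨m, φ, rfl, x, hx⟩
    rw [red, bitDecode_bitEncode, Option.map_some, Option.elim_some, Rep.down_up, if_pos rfl, hup,
      app_out (good_sys _ _), sys_iff]
    exact ⟨φ, rfl, x, hx⟩
  · intro h
    unfold red at h
    rcases hd : (bitDecode w : Option (ℕ × List (ℕ × ℤ))) with _ | ⟨m, l⟩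
    · rw [hd] at h
      exact absurd h hno
    rw [hd, Option.map_some, Option.elim_some, Rep.down_up] at h
    split_ifs at h with hw
    · rw [hup, app_out (good_sys _ _), sys_iff] at h
      obtain ⟨φ, hl, hx⟩ := h
      exact ⟨m, φ, by rw [hw, show l = φ.code from up_injective hl], hx⟩
    · exact absurd h hno

section
variable {α : Type} [Enc α]

@[fun_prop] theorem pt_psub {f g : α → Poly} (hf : PT f) (hg : PT g) :
    PT fun a => psub (f a) (g a) := by unfold psub; fun_prop

theorem pt_step : PT fun p : ℤ × Option St × (ℤ × ℤ) × ℕ => step p.1 p.2.1 p.2.2 := by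
  unfold step step1
  fun_prop

theorem sz_step (M : ℤ) (s : Option St) (e : (ℤ × ℤ) × ℕ) :
    sz (step M s e) ≤ sz s + (4 * sz e + 12) := by
  rcases s with _ | ⟨G, S⟩
  · simp [step]
  rcases h : step M (some (G, S)) e with _ | ⟨G', S'⟩
  · simp
  obtain ⟨⟨t, z⟩, p⟩ := e
  have hb := sz_bool
  rcases step1_cases (show step1 M (G, S) ((t, z), p) = some (G', S') from h) with
    ⟨-, rfl, rfl⟩ | ⟨-, k, a, r, rfl, -, rfl, rfl⟩ | ⟨-, k, o, a, b, r, rfl, -, rfl, rfl⟩
  · have := hb false
    simp; omega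
  · simp; omega
  · have := hb o
    simp; omega

@[fun_prop] theorem pt_run {M : α → ℤ} {l : α → List (ℤ × ℤ)} (hM : PT M) (hl : PT l) :
    PT fun a => run (M a) (l a) :=
  PT.foldl_add' (f := fun a => step (M a)) (g := fun _ e => 4 * sz e + 12) (by fun_prop)
    (PT.const _) (pt_step.comp (f := fun p : α × Option St × (ℤ × ℤ) × ℕ => (M p.1, p.2))
      (by fun_prop)) (by fun_prop) fun a s e => sz_step _ s e

theorem pt_geqs0 : PT fun p : ℤ × ℤ × ℕ × ℕ × ℕ × ℕ × ℕ × ℕ × ℕ =>
    geqs0 p.1 p.2.1 p.2.2.1 p.2.2.2.1 p.2.2.2.2.1 p.2.2.2.2.2.1 p.2.2.2.2.2.2.1 p.2.2.2.2.2.2.2.1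
      p.2.2.2.2.2.2.2.2 := by
  unfold geqs0
  fun_prop

@[fun_prop] theorem pt_first {l : α → List (ℤ × ℤ)} {z : α → ℤ} (hl : PT l) (hz : PT z) :
    PT fun a => first (l a) (z a) := by unfold first; fun_prop

@[fun_prop] theorem pt_geqs {l : α → List (ℤ × ℤ)} {g : α → Gate} (hl : PT l) (hg : PT g) :
    PT fun a => geqs (l a) (g a) :=
  pt_geqs0.comp (f := fun a => ((g a).2.1, (g a).2.2.1, 5 * first (l a) (g a).2.2.1,
    5 * (g a).1 + 1, 5 * (g a).1 + 2, 5 * (g a).1 + 3, 5 * (g a).1 + 4,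
    5 * (g a).2.2.2.1 + 1, 5 * (g a).2.2.2.2 + 1)) (by fun_prop)

@[fun_prop] theorem pt_sys {M : α → ℤ} {l : α → List (ℤ × ℤ)} (hM : PT M) (hl : PT l) :
    PT fun a => sys (M a) (l a) := by unfold sys; fun_prop

theorem pt_red : PT red :=
  PT.option_elim (PT.decode (ℕ × List (ℕ × ℤ)) PT.id) (PT.const _)
    (PT.ite (PT.dec_eq (by fun_prop) (PT.encode (ℕ × List (ℕ × ℤ)) (by fun_prop)))
      (pt_out (by fun_prop) (by fun_prop)) (PT.const _))

end

theorem main : N793a5b8e.ManyOneReducible ETR APP := manyOne_of_PT pt_red red_correct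

end Pool.Agent.Lib.MP_ca1301_lc
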