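import Mathlib
import Pool.Prelude.Def_F_458e953d

/-! The existential theory of the reals and affine polynomial projection as decision problems. -/

namespace Pool.Agent.Lib.MP_ca1301_lc

open N487b59b3 N68a2faeb

/-- Polynomial expressions with integer constants in `m` variables. -/
inductive Tm (m : ℕ) : Type
  | var (i : Fin m)
  | const (z : ℤ)
  | add (s t : Tm m)
  | mul (s t : Tm m)
  | neg (t : Tm m)

/-- Quantifier-free formulas in `m` variables. -/
inductive Fm (m : ℕ) : Type
  | eq (s t : Tm m)
  | lt (s t : Tm m)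
  | le (s t : Tm m)
  | not (φ : Fm m)
  | and (φ ψ : Fm m)
  | or (φ ψ : Fm m)

variable {m : ℕ}

/-- Value of an expression at a real point. -/
def Tm.eval (x : Fin m → ℝ) : Tm m → ℝ
  | .var i => x i
  | .const z => z
  | .add s t => s.eval x + t.eval x
  | .mul s t => s.eval x * t.eval x
  | .neg t => -t.eval x

/-- Truth of a formula at a real point. -/
def Fm.Holds (x : Fin m → ℝ) : Fm m → Prop
  | .eq s t => s.eval x = t.eval x
  | .lt s t => s.eval x < t.eval x
  | .le s t => s.eval x ≤ t.eval x
  | .not φ => ¬ φ.Holds x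
  | .and φ ψ => φ.Holds x ∧ ψ.Holds x
  | .or φ ψ => φ.Holds x ∨ ψ.Holds x

/-- Reverse Polish code of an expression: a list of symbols (tag, number). -/
def Tm.code : Tm m → List (ℕ × ℤ)
  | .var i => [(0, (i : ℕ))]
  | .const z => [(1, z)]
  | .add s t => s.code ++ t.code ++ [(2, 0)]
  | .mul s t => s.code ++ t.code ++ [(3, 0)]
  | .neg t => t.code ++ [(4, 0)]

/-- Reverse Polish code of a formula. -/
def Fm.code : Fm m → List (ℕ × ℤ)
  | .eq s t => s.code ++ t.code ++ [(5, 0)]
  | .lt s t => s.code ++ t.code ++ [(6, 0)]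
  | .le s t => s.code ++ t.code ++ [(7, 0)]
  | .not φ => φ.code ++ [(8, 0)]
  | .and φ ψ => φ.code ++ ψ.code ++ [(9, 0)]
  | .or φ ψ => φ.code ++ ψ.code ++ [(10, 0)]

open Classical in
/-- The existential theory of the reals: codes of true sentences `∃ x_1 ... x_m, φ`. -/
noncomputable def ETR : DecisionProblem := fun w =>
  decide (∃ (m : ℕ) (φ : Fm m), w = bitEncode (m, φ.code) ∧ ∃ x : Fin m → ℝ, φ.Holds x)

/-- All exponent vectors of length `n` and total degree at most `d`, in lexicographic order. -/
def monos : ℕ → ℕ → List (List ℕ)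
  | 0, _ => [[]]
  | n + 1, d => (List.range (d + 1)).flatMap fun e => (monos n (d - e)).map fun l => e :: l

/-- The polynomial function with coefficient list `C`, one coefficient for each monomial of
degree at most `d` in `n` variables. -/
def polyFun (n d : ℕ) (C : List ℤ) (x : Fin n → ℝ) : ℝ :=
  (((monos n d).zip C).map fun p => (p.2 : ℝ) * ∏ i : Fin n, x i ^ p.1.getD i 0).sum

open Classical in
/-- Affine polynomial projection: codes of pairs `f, g` with `f(x) = g(Ax + b)` for some `A, b`. -/
noncomputable def APP : DecisionProblem := fun w =>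
  decide (∃ (n d : ℕ) (F G : List ℤ), w = bitEncode (n, d, F, G) ∧
    F.length = (monos n d).length ∧ G.length = (monos n d).length ∧
    ∃ (A : Matrix (Fin n) (Fin n) ℝ) (b : Fin n → ℝ),
      ∀ x, polyFun n d F x = polyFun n d G (A.mulVec x + b))

end Pool.Agent.Lib.MP_ca1301_lc
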