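import Pool.Agent.Lib.MP_ca1301_lc.Defs
import Pool.Agent.Lib.Complexity.Bridge

/-! Sparse polynomials, their coefficient lists, and the instance attached to a quadratic system. -/

namespace Pool.Agent.Lib.MP_ca1301_lc

open N487b59b3 N68a2faeb Pool.Agent.Lib.Complexity

/-- Sparse polynomials: a monomial is a coefficient and a list of variables. -/
abbrev Poly : Type := List (ℤ × List ℕ)

/-- Evaluation of a sparse polynomial. -/
def evalP (y : ℕ → ℝ) (P : Poly) : ℝ := (P.map fun a => (a.1 : ℝ) * (a.2.map y).prod).sum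

def pvar (i : ℕ) : Poly := [(1, [i])]
def pconst (c : ℤ) : Poly := [(c, [])]
def pmul (P Q : Poly) : Poly := P.flatMap fun a => Q.map fun b => (a.1 * b.1, a.2 ++ b.2)
def pneg (P : Poly) : Poly := P.map fun a => (-a.1, a.2)
def pshift (P : Poly) : Poly := P.map fun a => (a.1, a.2.map fun i => i + 1)

variable (y : ℕ → ℝ)

@[simp] theorem evalP_nil : evalP y [] = 0 := rfl
theorem evalP_cons (a : ℤ × List ℕ) (P : Poly) :
    evalP y (a :: P) = a.1 * (a.2.map y).prod + evalP y P := by simp [evalP]
@[simp] theorem evalP_append (P Q : Poly) : evalP y (P ++ Q) = evalP y P + evalP y Q := by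
  simp [evalP]
@[simp] theorem evalP_pvar (i : ℕ) : evalP y (pvar i) = y i := by simp [evalP, pvar]
@[simp] theorem evalP_pconst (c : ℤ) : evalP y (pconst c) = c := by simp [evalP, pconst]
@[simp] theorem evalP_pneg (P : Poly) : evalP y (pneg P) = -evalP y P := by
  induction P with
  | nil => simp [pneg]
  | cons a P ih =>
    rw [pneg, List.map_cons, evalP_cons, ← pneg, ih, evalP_cons]
    push_cast; ring
@[simp] theorem evalP_pmul (P Q : Poly) : evalP y (pmul P Q) = evalP y P * evalP y Q := by
  induction P with
  | nil => simp [pmul]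
  | cons a P ih =>
    rw [pmul, List.flatMap_cons, evalP_append, ← pmul, ih, evalP_cons, add_mul]
    congr 1
    induction Q with
    | nil => simp
    | cons b Q ihQ =>
      rw [List.map_cons, evalP_cons, evalP_cons, mul_add]
      congr 1
      · simp only [List.map_append, List.prod_append]; push_cast; ring
      · simp only [evalP, List.map_map, ← List.sum_map_mul_left]
        congr 1
        refine List.map_congr_left fun c _ => ?_
        simp only [Function.comp, List.map_append, List.prod_append]; push_cast; ring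
@[simp] theorem evalP_pshift (P : Poly) : evalP y (pshift P) = evalP (fun i => y (i + 1)) P := by
  simp [evalP, pshift, Function.comp_def]

/-- Degree at most `k`, variables below `n`. -/
def Good (n k : ℕ) (P : Poly) : Prop := ∀ a ∈ P, a.2.length ≤ k ∧ ∀ i ∈ a.2, i < n

theorem evalP_congr {n k : ℕ} {P : Poly} (h : Good n k P) {y y' : ℕ → ℝ}
    (e : ∀ i < n, y i = y' i) : evalP y P = evalP y' P := by
  unfold evalP
  congr 1
  refine List.map_congr_left fun a ha => ?_
  rw [List.map_congr_left fun i hi => e i ((h a ha).2 i hi)]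

theorem Good.var {n k i : ℕ} (h : i < n) (hk : 1 ≤ k) : Good n k (pvar i) := by
  simp [Good, pvar, h, hk]
theorem Good.const {n k : ℕ} (c : ℤ) : Good n k (pconst c) := by simp [Good, pconst]
theorem Good.append {n k : ℕ} {P Q : Poly} (hP : Good n k P) (hQ : Good n k Q) :
    Good n k (P ++ Q) := fun a ha => (List.mem_append.1 ha).elim (hP a) (hQ a)
theorem Good.neg {n k : ℕ} {P : Poly} (hP : Good n k P) : Good n k (pneg P) := by
  intro a ha
  obtain ⟨b, hb, rfl⟩ := List.mem_map.1 ha
  exact hP b hb
theorem Good.mul {n k l : ℕ} {P Q : Poly} (hP : Good n k P) (hQ : Good n l Q) :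
    Good n (k + l) (pmul P Q) := by
  intro c hc
  obtain ⟨a, ha, hc⟩ := List.mem_flatMap.1 hc
  obtain ⟨b, hb, rfl⟩ := List.mem_map.1 hc
  refine ⟨by simpa using add_le_add (hP a ha).1 (hQ b hb).1, fun i hi => ?_⟩
  exact (List.mem_append.1 hi).elim ((hP a ha).2 i) ((hQ b hb).2 i)
theorem Good.mul2 {n : ℕ} {P Q : Poly} (hP : Good n 1 P) (hQ : Good n 1 Q) :
    Good n 2 (pmul P Q) := hP.mul hQ
theorem Good.shift {n k : ℕ} {P : Poly} (hP : Good n k P) : Good (n + 1) k (pshift P) := by
  intro c hc
  obtain ⟨a, ha, rfl⟩ := List.mem_map.1 hc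
  refine ⟨by simpa using (hP a ha).1, fun i hi => ?_⟩
  obtain ⟨j, hj, rfl⟩ := List.mem_map.1 hi
  exact Nat.succ_lt_succ ((hP a ha).2 j hj)

theorem mem_monos {n d : ℕ} {e : List ℕ} : e ∈ monos n d ↔ e.length = n ∧ e.sum ≤ d := by
  induction n generalizing d e with
  | zero => cases e <;> simp [monos]
  | succ n ih =>
    simp only [monos, List.mem_flatMap, List.mem_range, List.mem_map, ih]
    constructor
    · rintro ⟨k, hk, l, ⟨h1, h2⟩, rfl⟩
      simp only [List.length_cons, List.sum_cons]; omega
    · rintro ⟨h1, h2⟩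
      rcases e with _ | ⟨k, l⟩
      · simp at h1
      · simp only [List.length_cons, List.sum_cons] at h1 h2
        exact ⟨k, by omega, l, ⟨by omega, by omega⟩, rfl⟩

theorem nodup_monos (n d : ℕ) : (monos n d).Nodup := by
  induction n generalizing d with
  | zero => simp [monos]
  | succ n ih =>
    rw [monos, List.nodup_flatMap]
    refine ⟨fun e _ => (ih _).map fun _ _ h => (List.cons.inj h).2, ?_⟩
    refine List.nodup_range.imp fun {a b} hab => ?_
    intro l h1 h2
    obtain ⟨_, _, rfl⟩ := List.mem_map.1 h1
    obtain ⟨_, _, h⟩ := List.mem_map.1 h2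
    exact hab (List.cons.inj h).1.symm

theorem length_monos_mono (n : ℕ) {d d' : ℕ} (h : d ≤ d') :
    (monos n d).length ≤ (monos n d').length :=
  ((nodup_monos n d).subperm fun _ he =>
    mem_monos.2 ⟨(mem_monos.1 he).1, (mem_monos.1 he).2.trans h⟩).length_le

theorem length_monos_le (n d : ℕ) : (monos n d).length ≤ (n + 1) ^ d := by
  induction n generalizing d with
  | zero => simp [monos]
  | succ n ih =>
    rw [monos, List.length_flatMap]
    simp only [List.length_map]
    have key : ∀ d, ((List.range (d + 1)).map fun e => (n + 1) ^ (d - e)).sum ≤ (n + 2) ^ d := by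
      intro d
      induction d with
      | zero => simp
      | succ d ihd =>
        rw [List.range_succ_eq_map, List.map_cons, List.sum_cons, List.map_map]
        simp only [Function.comp_def, Nat.succ_eq_add_one, Nat.add_sub_add_right, Nat.sub_zero]
        have : (n + 1) ^ d ≤ (n + 2) ^ d := Nat.pow_le_pow_left (by omega) d
        rw [pow_succ, pow_succ]
        nlinarith
    exact (List.sum_le_sum fun e _ => ih _).trans (key d)

/-- Exponent vector of a list of variables. -/
def expv (n : ℕ) (vs : List ℕ) : List ℕ :=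
  (List.range n).map fun i => vs.countP fun j => decide (j = i)

/-- The list of all coefficients. -/
def dense (n d : ℕ) (P : Poly) : List ℤ :=
  (monos n d).map fun e => ((P.filter fun a => decide (expv n a.2 = e)).map fun a => a.1).sum

theorem length_dense (n d : ℕ) (P : Poly) : (dense n d P).length = (monos n d).length :=
  List.length_map _

/-- Extension by zero. -/
def ext {n : ℕ} (x : Fin n → ℝ) (i : ℕ) : ℝ := if h : i < n then x ⟨i, h⟩ else 0

theorem expv_getD (n : ℕ) (vs : List ℕ) (i : Fin n) :
    (expv n vs).getD i 0 = vs.countP fun j : ℕ => decide (j = (i : ℕ)) := by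
  simp [expv, List.getD_eq_getElem?_getD]

theorem prod_expv {n : ℕ} (x : Fin n → ℝ) {vs : List ℕ} (h : ∀ i ∈ vs, i < n) :
    ∏ i : Fin n, x i ^ (expv n vs).getD i 0 = (vs.map (ext x)).prod := by
  simp only [expv_getD]
  induction vs with
  | nil => simp
  | cons v vs ih =>
    have hv := h v (by simp)
    rw [List.map_cons, List.prod_cons, ← ih fun i hi => h i (by simp [hi])]
    simp only [List.countP_cons, pow_add, Finset.prod_mul_distrib, decide_eq_true_eq, pow_ite,
      pow_one, pow_zero]
    rw [mul_comm, Finset.prod_eq_single (⟨v, hv⟩ : Fin n)]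
    · simp [ext, hv]
    · intro i _ hi
      rw [if_neg fun h => hi (Fin.ext h.symm)]
    · simp

theorem sum_expv (n : ℕ) (vs : List ℕ) : (expv n vs).sum ≤ vs.length := by
  unfold expv
  induction vs with
  | nil => simp
  | cons v vs ih =>
    simp only [List.countP_cons, List.sum_map_add, decide_eq_true_eq, List.length_cons]
    refine add_le_add ih ?_
    rw [← List.sum_toFinset _ List.nodup_range, Finset.sum_ite_eq]
    split_ifs <;> simp

theorem polyFun_dense {n d : ℕ} {P : Poly} (h : Good n d P) (x : Fin n → ℝ) :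
    polyFun n d (dense n d P) x = evalP (ext x) P := by
  unfold polyFun dense
  rw [← List.map_id (monos n d), List.map_map, List.zip_map', List.map_map,
    ← List.sum_toFinset _ (nodup_monos n d)]
  simp only [Function.comp, id]
  induction P with
  | nil => simp
  | cons a P ih =>
    have ha := h a (by simp)
    rw [evalP_cons, ← ih fun b hb => h b (by simp [hb]), ← prod_expv x ha.2]
    have : ∀ e, (((((a :: P).filter fun a => decide (expv n a.2 = e)).map fun a => a.1).sum : ℤ) : ℝ)
        = (if expv n a.2 = e then (a.1 : ℝ) else 0) +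
          ((((P.filter fun a => decide (expv n a.2 = e)).map fun a => a.1).sum : ℤ) : ℝ) := by
      intro e
      by_cases he : expv n a.2 = e <;> simp [he]
    simp only [this, add_mul, Finset.sum_add_distrib, ite_mul, zero_mul, Finset.sum_ite_eq]
    rw [if_pos (List.mem_toFinset.2 (mem_monos.2
      ⟨by simp [expv], (sum_expv n a.2).trans ha.1⟩))]

/-- The sum of squares attached to a system. -/
def sos (eqs : List Poly) : Poly :=
  pmul (pvar 0) (pvar 0) ++ eqs.flatMap fun E => pmul (pshift E) (pshift E)

theorem good_sos {n : ℕ} {eqs : List Poly} (h : ∀ E ∈ eqs, Good n 2 E) :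
    Good (n + 1) 4 (sos eqs) := by
  refine Good.append (Good.mul (k := 2) (l := 2) (Good.var (by omega) (by omega))
    (Good.var (by omega) (by omega))) fun a ha => ?_
  obtain ⟨E, hE, ha⟩ := List.mem_flatMap.1 ha
  exact ((h E hE).shift.mul (h E hE).shift) a ha

theorem evalP_sos (eqs : List Poly) : evalP y (sos eqs) =
    y 0 ^ 2 + (eqs.map fun E => evalP (fun i => y (i + 1)) E ^ 2).sum := by
  rw [sos, evalP_append, evalP_pmul, evalP_pvar, sq]
  congr 1
  induction eqs with
  | nil => rfl
  | cons E eqs ih => simp [ih, sq]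

/-- The instance `f = x_0 ^ 2`, `g = x_0 ^ 2 + ∑ E ^ 2`. -/
def out (n : ℕ) (eqs : List Poly) : List Bool :=
  bitEncode (n + 1, 4, dense (n + 1) 4 (sos []), dense (n + 1) 4 (sos eqs))

theorem app_out {n : ℕ} {eqs : List Poly} (h : ∀ E ∈ eqs, Good n 2 E) :
    APP (out n eqs) = true ↔ ∃ y : ℕ → ℝ, ∀ E ∈ eqs, evalP y E = 0 := by
  have h0 : Good (n + 1) 4 (sos []) := good_sos (by simp)
  classical
  rw [APP, decide_eq_true_iff]
  constructor
  · rintro ⟨n', d, F, G, he, -, -, A, b, hAb⟩
    obtain ⟨rfl, rfl, rfl, rfl⟩ : n + 1 = n' ∧ 4 = d ∧ dense (n + 1) 4 (sos []) = F ∧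
        dense (n + 1) 4 (sos eqs) = G := by
      simpa using bitEncode_injective he
    have h1 := hAb 0
    rw [polyFun_dense h0, polyFun_dense (good_sos h), evalP_sos, evalP_sos, Matrix.mulVec_zero,
      zero_add] at h1
    have h2 : ext (0 : Fin (n + 1) → ℝ) 0 = 0 := by simp [ext]
    rw [h2] at h1
    refine ⟨fun i => ext b (i + 1), fun E hE => ?_⟩
    have h3 := List.single_le_sum (l := eqs.map fun E => evalP (fun i => ext b (i + 1)) E ^ 2)
      (fun z hz => by obtain ⟨_, _, rfl⟩ := List.mem_map.1 hz; positivity) _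
      (List.mem_map.2 ⟨E, hE, rfl⟩)
    simp only [List.map_nil, List.sum_nil] at h1
    exact pow_eq_zero_iff (n := 2) (by norm_num) |>.1
      (le_antisymm (by nlinarith [sq_nonneg (ext b 0)]) (sq_nonneg _))
  · rintro ⟨y, hy⟩
    refine ⟨n + 1, 4, _, _, rfl, length_dense _ _ _, length_dense _ _ _,
      Matrix.of fun i j => if i = 0 ∧ j = 0 then 1 else 0, Fin.cons 0 fun i => y i, fun x => ?_⟩
    rw [polyFun_dense h0, polyFun_dense (good_sos h), evalP_sos, evalP_sos]
    congr 1
    · simp [ext, Matrix.mulVec, dotProduct]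
    · rw [List.map_nil, List.sum_nil, List.sum_eq_zero]
      intro z hz
      obtain ⟨E, hE, rfl⟩ := List.mem_map.1 hz
      rw [evalP_congr (h E hE) (y' := y), hy E hE]
      · norm_num
      · intro i hi
        rw [ext, dif_pos (by omega : i + 1 < n + 1)]
        change (_ : ℝ) + y i = y i
        rw [add_eq_right, Matrix.mulVec, dotProduct]
        refine Finset.sum_eq_zero fun j _ => ?_
        rw [Matrix.of_apply, if_neg fun h => by simpa using h.1, zero_mul]

/-! ### polynomial time -/

section
variable {α : Type} [Enc α]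

@[fun_prop] theorem pt_pvar {f : α → ℕ} (hf : PT f) : PT fun a => pvar (f a) := by
  unfold pvar; fun_prop
@[fun_prop] theorem pt_pconst {f : α → ℤ} (hf : PT f) : PT fun a => pconst (f a) := by
  unfold pconst; fun_prop
@[fun_prop] theorem pt_pmul {f g : α → Poly} (hf : PT f) (hg : PT g) :
    PT fun a => pmul (f a) (g a) := by unfold pmul; fun_prop
@[fun_prop] theorem pt_pneg {f : α → Poly} (hf : PT f) : PT fun a => pneg (f a) := by
  unfold pneg; fun_prop
@[fun_prop] theorem pt_pshift {f : α → Poly} (hf : PT f) : PT fun a => pshift (f a) := by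
  unfold pshift; fun_prop
@[fun_prop] theorem pt_sos {f : α → List Poly} (hf : PT f) : PT fun a => sos (f a) := by
  unfold sos; fun_prop
@[fun_prop] theorem pt_expv {n : α → ℕ} {f : α → List ℕ} (hn : PT n) (hf : PT f) :
    PT fun a => expv (n a) (f a) := by unfold expv; fun_prop

def monoStep (S : List (List (List ℕ))) : List (List (List ℕ)) :=
  (List.range 5).map fun d => (List.range (d + 1)).flatMap fun e =>
    (S.getD (d - e) []).map fun l => e :: l

theorem monoStep_iter (n : ℕ) :
    monoStep^[n] (List.replicate 5 [[]]) = (List.range 5).map (monos n) := by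
  induction n with
  | zero => rfl
  | succ n ih =>
    rw [Function.iterate_succ_apply', ih, monoStep]
    refine List.map_congr_left fun d hd => ?_
    rw [monos]
    refine List.flatMap_congr fun e _ => ?_
    have : d - e < 5 := by have := List.mem_range.1 hd; omega
    simp [List.getD_eq_getElem?_getD, this]

theorem sz_nat_list (l : List ℕ) : sz l = l.sum + l.length := by
  rw [sz_list_eq]
  congr 2
  exact (List.map_congr_left fun a _ => sz_nat a).trans (List.map_id l)

theorem pt_monos {n : α → ℕ} (hn : PT n) : PT fun a => monos (n a) 4 := by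
  have h1 := PT.iterate (step := fun _ => monoStep) hn (PT.const (List.replicate 5 [[]]))
    (by unfold monoStep; fun_prop) (B := fun a => 5 * ((n a + 1) ^ 4 * (n a + 5) + 1))
    (PT.pb_nat (by fun_prop)) (fun a i hi => by
      rw [monoStep_iter]
      refine (sz_list_le (B := (n a + 1) ^ 4 * (n a + 5)) fun L hL => ?_).trans (by simp)
      obtain ⟨d, hd, rfl⟩ := List.mem_map.1 hL
      have hd' := List.mem_range.1 hd
      refine (sz_list_le (B := n a + 4) fun e he => ?_).trans (Nat.mul_le_mul_right _ ?_)
      · have := mem_monos.1 he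
        rw [sz_nat_list]; omega
      · exact ((length_monos_mono i (by omega : d ≤ 4)).trans (length_monos_le i 4)).trans
          (Nat.pow_le_pow_left (by omega) 4))
  exact (PT.getD h1 (PT.const 4) (PT.const [])).of_eq fun a => by
    rw [monoStep_iter]; rfl

theorem pt_dense {n : α → ℕ} {f : α → Poly} (hn : PT n) (hf : PT f) :
    PT fun a => dense (n a) 4 (f a) := by
  have h := pt_monos hn
  unfold dense
  fun_prop

theorem pt_out {n : α → ℕ} {f : α → List Poly} (hn : PT n) (hf : PT f) :
    PT fun a => out (n a) (f a) := by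
  have h1 := pt_dense (n := fun a => n a + 1) (f := fun _ => sos []) (by fun_prop) (by fun_prop)
  have h2 := pt_dense (n := fun a => n a + 1) (f := fun a => sos (f a)) (by fun_prop) (by fun_prop)
  refine (PT.encode (ℕ × ℕ × List ℤ × List ℤ) (f := fun a => (((n a + 1 : ℕ) : ℤ), (4 : ℤ),
    dense (n a + 1) 4 (sos []), dense (n a + 1) 4 (sos (f a)))) (by fun_prop)).of_eq fun a => ?_
  unfold out
  congr 1
  have : ∀ l : List ℤ, l.map (Rep.down : ℤ → ℤ) = l := fun l => List.map_id l
  simp [this]

end

end Pool.Agent.Lib.MP_ca1301_lc
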