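import Pool.Agent.Lib.MP_ca1301_lc.Dense

/-! A stack machine turning reverse Polish codes into gate lists; quadratic equations of gates. -/

namespace Pool.Agent.Lib.MP_ca1301_lc

open Pool.Agent.Lib.Complexity

/-- position, tag, number, first child, second child -/
abbrev Gate : Type := ℕ × ℤ × ℤ × ℕ × ℕ

abbrev St : Type := List Gate × List (Bool × ℕ)

def step1 (m : ℤ) (s : St) (e : (ℤ × ℤ) × ℕ) : Option St :=
  if (e.1.1 = 0 ∧ 0 ≤ e.1.2 ∧ e.1.2 < m) ∨ e.1.1 = 1 then
    some ((e.2, e.1.1, e.1.2, e.2, e.2) :: s.1, (false, e.2) :: s.2)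
  else if e.1.2 = 0 then
    List.casesOn (motive := fun _ => Option St) s.2 none fun c r =>
      if (e.1.1 = 4 ∧ c.1 = false) ∨ (e.1.1 = 8 ∧ c.1 = true) then
        some ((e.2, e.1.1, e.1.2, c.2, e.2) :: s.1, (c.1, e.2) :: r)
      else
        List.casesOn (motive := fun _ => Option St) r none fun c' r' =>
          if (e.1.1 = 2 ∨ e.1.1 = 3) ∧ c.1 = false ∧ c'.1 = false then
            some ((e.2, e.1.1, e.1.2, c'.2, c.2) :: s.1, (false, e.2) :: r')
          else if ((e.1.1 = 5 ∨ e.1.1 = 6 ∨ e.1.1 = 7) ∧ c.1 = false ∧ c'.1 = false) ∨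
              ((e.1.1 = 9 ∨ e.1.1 = 10) ∧ c.1 = true ∧ c'.1 = true) then
            some ((e.2, e.1.1, e.1.2, c'.2, c.2) :: s.1, (true, e.2) :: r')
          else none
  else none

def step (m : ℤ) (s : Option St) (e : (ℤ × ℤ) × ℕ) : Option St := s.bind fun s => step1 m s e

def run (m : ℤ) (l : List (ℤ × ℤ)) : Option St := (l.zipIdx 0).foldl (step m) (some ([], []))

theorem step1_cases {m : ℤ} {G G' : List Gate} {S S' : List (Bool × ℕ)} {t z : ℤ} {p : ℕ}
    (h : step1 m (G, S) ((t, z), p) = some (G', S')) :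
    (((t = 0 ∧ 0 ≤ z ∧ z < m) ∨ t = 1) ∧ G' = (p, t, z, p, p) :: G ∧ S' = (false, p) :: S) ∨
    (z = 0 ∧ ∃ k a r, S = (k, a) :: r ∧ ((t = 4 ∧ k = false) ∨ (t = 8 ∧ k = true)) ∧
      G' = (p, t, z, a, p) :: G ∧ S' = (k, p) :: r) ∨
    (z = 0 ∧ ∃ k o a b r, S = (k, b) :: (k, a) :: r ∧
      (((t = 2 ∨ t = 3) ∧ k = false ∧ o = false) ∨
        ((t = 5 ∨ t = 6 ∨ t = 7) ∧ k = false ∧ o = true) ∨
        ((t = 9 ∨ t = 10) ∧ k = true ∧ o = true)) ∧
      G' = (p, t, z, a, b) :: G ∧ S' = (o, p) :: r) := by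
  unfold step1 at h
  dsimp only at h
  split_ifs at h with h1 h2
  · obtain ⟨rfl, rfl⟩ := Prod.mk.inj (Option.some.inj h)
    exact Or.inl ⟨h1, rfl, rfl⟩
  · rcases S with _ | ⟨⟨k, b⟩, r⟩
    · simp at h
    dsimp only at h
    split_ifs at h with h3
    · obtain ⟨rfl, rfl⟩ := Prod.mk.inj (Option.some.inj h)
      exact Or.inr (Or.inl ⟨h2, k, b, r, rfl, h3, rfl, rfl⟩)
    rcases r with _ | ⟨⟨k', a⟩, r⟩
    · simp at h
    dsimp only at h
    split_ifs at h with h4 h5
    · obtain ⟨rfl, rfl⟩ := Prod.mk.inj (Option.some.inj h)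
      obtain ⟨h4, rfl, rfl⟩ := h4
      exact Or.inr (Or.inr ⟨h2, false, false, a, b, r, rfl, Or.inl ⟨h4, rfl, rfl⟩, rfl, rfl⟩)
    · obtain ⟨rfl, rfl⟩ := Prod.mk.inj (Option.some.inj h)
      rcases h5 with ⟨h5, rfl, rfl⟩ | ⟨h5, rfl, rfl⟩
      · exact Or.inr (Or.inr ⟨h2, false, true, a, b, r, rfl, Or.inr (Or.inl ⟨h5, rfl, rfl⟩),
          rfl, rfl⟩)
      · exact Or.inr (Or.inr ⟨h2, true, true, a, b, r, rfl, Or.inr (Or.inr ⟨h5, rfl, rfl⟩),
          rfl, rfl⟩)

theorem run_snoc (m : ℤ) (l : List (ℤ × ℤ)) (e : ℤ × ℤ) :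
    run m (l ++ [e]) = step m (run m l) (e, l.length) := by
  simp [run, List.zipIdx_append]

/-- The equations of a gate, on real numbers: `r` is the value, `s, q, t` are auxiliary,
`u, w` are the values of the children and `x` the value of the variable. -/
def E0 (tag z : ℤ) (x r s q t u w : ℝ) : Prop :=
  if tag = 0 then r = x else if tag = 1 then r = z else if tag = 2 then r = u + w
  else if tag = 3 then r = u * w else if tag = 4 then r = -u
  else if tag = 5 then r = 1 - (u - w) * s ∧ (u - w) * r = 0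
  else if tag = 6 then q = s * s ∧ (w - u) * (w - u) = q * q ∧ r = (w - u + q) * t ∧
    (w - u + q) * (1 - r) = 0
  else if tag = 7 then q = s * s ∧ (u - w) * (u - w) = q * q ∧ r = 1 - (u - w + q) * t ∧
    (u - w + q) * r = 0
  else if tag = 8 then r = 1 - u else if tag = 9 then r = u * w else r = u + w - u * w

theorem abs_gadget {e s q : ℝ} (h1 : q = s * s) (h2 : e * e = q * q) : e + q = 0 ↔ e ≤ 0 := by
  have hq : 0 ≤ q := h1 ▸ mul_self_nonneg s
  constructor
  · intro h; linarith
  · intro h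
    rcases mul_self_eq_mul_self_iff.1 h2 with h3 | h3 <;> linarith

theorem E0_five {z : ℤ} {x r s q t u w : ℝ} (h : E0 5 z x r s q t u w) :
    r = if u = w then 1 else 0 := by
  simp only [E0] at h
  norm_num at h
  split_ifs with h1
  · simpa [h1] using h.1
  · exact h.2.resolve_left (sub_ne_zero.2 h1)

theorem E0_six {z : ℤ} {x r s q t u w : ℝ} (h : E0 6 z x r s q t u w) :
    r = if u < w then 1 else 0 := by
  simp only [E0] at h
  norm_num only [if_true, if_false] at h
  obtain ⟨h1, h2, h3, h4⟩ := h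
  have := abs_gadget h1 h2
  split_ifs with h5
  · have h6 : w - u + q ≠ 0 := fun h => by have := this.1 h; linarith
    have := (mul_eq_zero.1 h4).resolve_left h6
    linarith
  · rw [h3, this.2 (by linarith [not_lt.1 h5]), zero_mul]

theorem E0_seven {z : ℤ} {x r s q t u w : ℝ} (h : E0 7 z x r s q t u w) :
    r = if u ≤ w then 1 else 0 := by
  simp only [E0] at h
  norm_num only [if_true, if_false] at h
  obtain ⟨h1, h2, h3, h4⟩ := h
  have := abs_gadget h1 h2
  split_ifs with h5
  · rw [h3, this.2 (by linarith), zero_mul, sub_zero]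
  · exact (mul_eq_zero.1 h4).resolve_left fun h => h5 (by have := this.1 h; linarith)

theorem E0_exists (tag z : ℤ) (x u w : ℝ) : ∃ r s q t, E0 tag z x r s q t u w := by
  have key : ∀ e : ℝ, ∃ s q t : ℝ, q = s * s ∧ e * e = q * q ∧ (e + q) * (1 - (e + q) * t) = 0 :=
    fun e => ⟨√|e|, |e|, (e + |e|)⁻¹, (Real.mul_self_sqrt (abs_nonneg e)).symm,
      (abs_mul_abs_self e).symm, by
        rcases eq_or_ne (e + |e|) 0 with h | h
        · rw [h, zero_mul]
        · rw [mul_inv_cancel₀ h, sub_self, mul_zero]⟩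
  unfold E0
  by_cases h0 : tag = 0
  · simp only [if_pos h0]; exact ⟨_, 0, 0, 0, rfl⟩
  by_cases h1 : tag = 1
  · simp only [if_neg h0, if_pos h1]; exact ⟨_, 0, 0, 0, rfl⟩
  by_cases h2 : tag = 2
  · simp only [if_neg h0, if_neg h1, if_pos h2]; exact ⟨_, 0, 0, 0, rfl⟩
  by_cases h3 : tag = 3
  · simp only [if_neg h0, if_neg h1, if_neg h2, if_pos h3]; exact ⟨_, 0, 0, 0, rfl⟩
  by_cases h4 : tag = 4
  · simp only [if_neg h0, if_neg h1, if_neg h2, if_neg h3, if_pos h4]; exact ⟨_, 0, 0, 0, rfl⟩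
  simp only [if_neg h0, if_neg h1, if_neg h2, if_neg h3, if_neg h4]
  by_cases h5 : tag = 5
  · simp only [if_pos h5]
    refine ⟨_, (u - w)⁻¹, 0, 0, rfl, ?_⟩
    rcases eq_or_ne (u - w) 0 with h | h
    · rw [h, zero_mul]
    · rw [mul_inv_cancel₀ h, sub_self, mul_zero]
  by_cases h6 : tag = 6
  · simp only [if_neg h5, if_pos h6]
    obtain ⟨s, q, t, h1, h2, h3⟩ := key (w - u)
    exact ⟨_, s, q, t, h1, h2, rfl, h3⟩
  by_cases h7 : tag = 7
  · simp only [if_neg h5, if_neg h6, if_pos h7]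
    obtain ⟨s, q, t, h1, h2, h3⟩ := key (u - w)
    exact ⟨_, s, q, t, h1, h2, rfl, h3⟩
  simp only [if_neg h5, if_neg h6, if_neg h7]
  split_ifs
  · exact ⟨_, 0, 0, 0, rfl⟩
  · exact ⟨_, 0, 0, 0, rfl⟩
  · exact ⟨_, 0, 0, 0, rfl⟩

/-- The equations of a gate hold for the assignment `y`. -/
def Eqn (X : ℤ → ℝ) (y : ℕ → ℝ) (g : Gate) : Prop :=
  E0 g.2.1 g.2.2.1 (X g.2.2.1) (y (5 * g.1 + 1)) (y (5 * g.1 + 2)) (y (5 * g.1 + 3))
    (y (5 * g.1 + 4)) (y (5 * g.2.2.2.1 + 1)) (y (5 * g.2.2.2.2 + 1))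

/-- Tags as integers. -/
def up (l : List (ℕ × ℤ)) : List (ℤ × ℤ) := l.map fun e => ((e.1 : ℤ), e.2)

@[simp] theorem up_append (l l' : List (ℕ × ℤ)) : up (l ++ l') = up l ++ up l' := List.map_append
@[simp] theorem up_single (a : ℕ) (z : ℤ) : up [(a, z)] = [((a : ℤ), z)] := rfl

variable {m : ℕ}

theorem term_run (t : Tm m) : ∀ (k : ℕ) (G : List Gate) (S : List (Bool × ℕ)), ∃ q new,
    ((up t.code).zipIdx k).foldl (step m) (some (G, S)) = some (new ++ G, (false, q) :: S) ∧
    ∀ X y, (∀ g ∈ new, Eqn X y g) → y (5 * q + 1) = t.eval fun i => X (i : ℕ) := by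
  induction t with
  | var i =>
    intro k G S
    refine ⟨k, [(k, 0, (i : ℕ), k, k)], by simp [Tm.code, step, step1], fun X y h => ?_⟩
    simpa [Eqn, E0, Tm.eval] using h
  | const z =>
    intro k G S
    refine ⟨k, [(k, 1, z, k, k)], by simp [Tm.code, step, step1], fun X y h => ?_⟩
    simpa [Eqn, E0, Tm.eval] using h
  | add s t ihs iht =>
    intro k G S
    obtain ⟨a, n1, e1, h1⟩ := ihs k G S
    obtain ⟨b, n2, e2, h2⟩ := iht (k + (up s.code).length) (n1 ++ G) ((false, a) :: S)
    refine ⟨k + (up s.code).length + (up t.code).length,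
      (k + (up s.code).length + (up t.code).length, 2, 0, a, b) :: (n2 ++ n1),
      by simp [Tm.code, List.zipIdx_append, e1, e2, step, step1], fun X y h => ?_⟩
    rw [Tm.eval, ← h1 X y fun g hg => h g (by simp [hg]), ← h2 X y fun g hg => h g (by simp [hg])]
    simpa [Eqn, E0] using h _ List.mem_cons_self
  | mul s t ihs iht =>
    intro k G S
    obtain ⟨a, n1, e1, h1⟩ := ihs k G S
    obtain ⟨b, n2, e2, h2⟩ := iht (k + (up s.code).length) (n1 ++ G) ((false, a) :: S)
    refine ⟨k + (up s.code).length + (up t.code).length,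
      (k + (up s.code).length + (up t.code).length, 3, 0, a, b) :: (n2 ++ n1),
      by simp [Tm.code, List.zipIdx_append, e1, e2, step, step1], fun X y h => ?_⟩
    rw [Tm.eval, ← h1 X y fun g hg => h g (by simp [hg]), ← h2 X y fun g hg => h g (by simp [hg])]
    have := h _ List.mem_cons_self
    simp only [Eqn, E0] at this
    norm_num only [if_true, if_false] at this
    exact this
  | neg t iht =>
    intro k G S
    obtain ⟨a, n1, e1, h1⟩ := iht k G S
    refine ⟨k + (up t.code).length,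
      (k + (up t.code).length, 4, 0, a, k + (up t.code).length) :: n1,
      by simp [Tm.code, List.zipIdx_append, e1, step, step1], fun X y h => ?_⟩
    rw [Tm.eval, ← h1 X y fun g hg => h g (by simp [hg])]
    simpa [Eqn, E0] using h _ List.mem_cons_self

open Classical in
theorem form_run (φ : Fm m) : ∀ (k : ℕ) (G : List Gate) (S : List (Bool × ℕ)), ∃ q new,
    ((up φ.code).zipIdx k).foldl (step m) (some (G, S)) = some (new ++ G, (true, q) :: S) ∧
    ∀ X y, (∀ g ∈ new, Eqn X y g) →
      y (5 * q + 1) = if φ.Holds fun i => X (i : ℕ) then 1 else 0 := by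
  induction φ with
  | eq s t =>
    intro k G S
    obtain ⟨a, n1, e1, h1⟩ := term_run s k G S
    obtain ⟨b, n2, e2, h2⟩ := term_run t (k + (up s.code).length) (n1 ++ G) ((false, a) :: S)
    refine ⟨k + (up s.code).length + (up t.code).length,
      (k + (up s.code).length + (up t.code).length, 5, 0, a, b) :: (n2 ++ n1),
      by simp [Fm.code, List.zipIdx_append, e1, e2, step, step1], fun X y h => ?_⟩
    simp only [Fm.Holds, ← h1 X y fun g hg => h g (by simp [hg]),
      ← h2 X y fun g hg => h g (by simp [hg])]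
    exact (E0_five (h _ List.mem_cons_self)).trans (if_congr Iff.rfl rfl rfl)
  | lt s t =>
    intro k G S
    obtain ⟨a, n1, e1, h1⟩ := term_run s k G S
    obtain ⟨b, n2, e2, h2⟩ := term_run t (k + (up s.code).length) (n1 ++ G) ((false, a) :: S)
    refine ⟨k + (up s.code).length + (up t.code).length,
      (k + (up s.code).length + (up t.code).length, 6, 0, a, b) :: (n2 ++ n1),
      by simp [Fm.code, List.zipIdx_append, e1, e2, step, step1], fun X y h => ?_⟩
    simp only [Fm.Holds, ← h1 X y fun g hg => h g (by simp [hg]),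
      ← h2 X y fun g hg => h g (by simp [hg])]
    exact (E0_six (h _ List.mem_cons_self)).trans (if_congr Iff.rfl rfl rfl)
  | le s t =>
    intro k G S
    obtain ⟨a, n1, e1, h1⟩ := term_run s k G S
    obtain ⟨b, n2, e2, h2⟩ := term_run t (k + (up s.code).length) (n1 ++ G) ((false, a) :: S)
    refine ⟨k + (up s.code).length + (up t.code).length,
      (k + (up s.code).length + (up t.code).length, 7, 0, a, b) :: (n2 ++ n1),
      by simp [Fm.code, List.zipIdx_append, e1, e2, step, step1], fun X y h => ?_⟩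
    simp only [Fm.Holds, ← h1 X y fun g hg => h g (by simp [hg]),
      ← h2 X y fun g hg => h g (by simp [hg])]
    exact (E0_seven (h _ List.mem_cons_self)).trans (if_congr Iff.rfl rfl rfl)
  | not φ ih =>
    intro k G S
    obtain ⟨a, n1, e1, h1⟩ := ih k G S
    refine ⟨k + (up φ.code).length,
      (k + (up φ.code).length, 8, 0, a, k + (up φ.code).length) :: n1,
      by simp [Fm.code, List.zipIdx_append, e1, step, step1], fun X y h => ?_⟩
    have h3 := h _ List.mem_cons_self
    simp only [Eqn, E0] at h3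
    norm_num only [if_true, if_false] at h3
    rw [h3, h1 X y fun g hg => h g (by simp [hg])]
    by_cases hφ : φ.Holds fun i => X (i : ℕ) <;> simp [Fm.Holds, hφ]
  | and φ ψ ihφ ihψ =>
    intro k G S
    obtain ⟨a, n1, e1, h1⟩ := ihφ k G S
    obtain ⟨b, n2, e2, h2⟩ := ihψ (k + (up φ.code).length) (n1 ++ G) ((true, a) :: S)
    refine ⟨k + (up φ.code).length + (up ψ.code).length,
      (k + (up φ.code).length + (up ψ.code).length, 9, 0, a, b) :: (n2 ++ n1),
      by simp [Fm.code, List.zipIdx_append, e1, e2, step, step1], fun X y h => ?_⟩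
    have h3 := h _ List.mem_cons_self
    simp only [Eqn, E0] at h3
    norm_num only [if_true, if_false] at h3
    rw [h3, h1 X y fun g hg => h g (by simp [hg]), h2 X y fun g hg => h g (by simp [hg])]
    by_cases hφ : φ.Holds fun i => X (i : ℕ) <;> by_cases hψ : ψ.Holds fun i => X (i : ℕ) <;>
      simp [Fm.Holds, hφ, hψ]
  | or φ ψ ihφ ihψ =>
    intro k G S
    obtain ⟨a, n1, e1, h1⟩ := ihφ k G S
    obtain ⟨b, n2, e2, h2⟩ := ihψ (k + (up φ.code).length) (n1 ++ G) ((true, a) :: S)
    refine ⟨k + (up φ.code).length + (up ψ.code).length,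
      (k + (up φ.code).length + (up ψ.code).length, 10, 0, a, b) :: (n2 ++ n1),
      by simp [Fm.code, List.zipIdx_append, e1, e2, step, step1], fun X y h => ?_⟩
    have h3 := h _ List.mem_cons_self
    simp only [Eqn, E0] at h3
    norm_num only [if_true, if_false] at h3
    rw [h3, h1 X y fun g hg => h g (by simp [hg]), h2 X y fun g hg => h g (by simp [hg])]
    by_cases hφ : φ.Holds fun i => X (i : ℕ) <;> by_cases hψ : ψ.Holds fun i => X (i : ℕ) <;>
      simp [Fm.Holds, hφ, hψ]

theorem run_inv (M : ℤ) (l : List (ℤ × ℤ)) : ∀ G S, run M l = some (G, S) →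
    (∀ g ∈ G, g.1 < l.length ∧ g.2.2.2.1 < l.length ∧ g.2.2.2.2 < l.length ∧
      (g.2.1, g.2.2.1) ∈ l) ∧ (∀ c ∈ S, c.2 < l.length) ∧
    ∀ X, ∃ y, ∀ g ∈ G, Eqn X y g := by
  induction l using List.reverseRecOn with
  | nil =>
    intro G S h
    obtain ⟨rfl, rfl⟩ := Prod.mk.inj (Option.some.inj h)
    simp
  | append_singleton l e ih =>
    intro G' S' h
    rw [run_snoc, step, Option.bind_eq_some_iff] at h
    obtain ⟨⟨G, S⟩, h1, h2⟩ := h
    obtain ⟨i1, i2, i3⟩ := ih G S h1
    obtain ⟨t, z⟩ := e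
    have key : ∀ a b : ℕ, (a < l.length ∨ (a = l.length ∧ (t = 0 ∨ t = 1))) →
        (b < l.length ∨ (b = l.length ∧ (t = 0 ∨ t = 1 ∨ t = 4 ∨ t = 8))) →
        (∀ g ∈ ((l.length, t, z, a, b) :: G : List Gate), g.1 < (l ++ [(t, z)]).length ∧
          g.2.2.2.1 < (l ++ [(t, z)]).length ∧ g.2.2.2.2 < (l ++ [(t, z)]).length ∧
          (g.2.1, g.2.2.1) ∈ l ++ [(t, z)]) ∧
        ∀ X, ∃ y, ∀ g ∈ ((l.length, t, z, a, b) :: G : List Gate), Eqn X y g := by
      intro a b ha hb
      refine ⟨fun g hg => ?_, fun X => ?_⟩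
      · rcases List.mem_cons.1 hg with rfl | hg
        · simp; omega
        · have := i1 g hg
          simp [this.2.2.2]; omega
      · obtain ⟨y, hy⟩ := i3 X
        obtain ⟨r, s, q, u, hE⟩ := E0_exists t z (X z) (y (5 * a + 1)) (y (5 * b + 1))
        let y' : ℕ → ℝ := fun i => if i = 5 * l.length + 1 then r else if i = 5 * l.length + 2 then s
          else if i = 5 * l.length + 3 then q else if i = 5 * l.length + 4 then u else y i
        have hy' : ∀ i < 5 * l.length, y' i = y i := fun i hi => by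
          simp only [y']
          rw [if_neg (by omega), if_neg (by omega), if_neg (by omega), if_neg (by omega)]
        refine ⟨y', fun g hg => ?_⟩
        rcases List.mem_cons.1 hg with rfl | hg
        · have e1 : y' (5 * l.length + 1) = r := by simp [y']
          have e2 : y' (5 * l.length + 2) = s := by simp [y']
          have e3 : y' (5 * l.length + 3) = q := by simp [y']
          have e4 : y' (5 * l.length + 4) = u := by simp [y']
          simp only [Eqn, e1, e2, e3, e4]
          rcases ha with ha | ⟨-, rfl | rfl⟩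
          · rw [hy' _ (by omega)]
            rcases hb with hb | ⟨-, rfl | rfl | rfl | rfl⟩
            · rwa [hy' _ (by omega)]
            all_goals simpa [E0] using hE
          all_goals simpa [E0] using hE
        · have := i1 g hg
          have h3 := hy g hg
          unfold Eqn at h3 ⊢
          rwa [hy' _ (by omega), hy' _ (by omega), hy' _ (by omega), hy' _ (by omega),
            hy' _ (by omega), hy' _ (by omega)]
    rcases step1_cases h2 with ⟨h3, rfl, rfl⟩ | ⟨-, k, a, r, rfl, h3, rfl, rfl⟩ |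
      ⟨-, k, o, a, b, r, rfl, -, rfl, rfl⟩
    · obtain ⟨k1, k2⟩ := key l.length l.length (by omega) (by omega)
      refine ⟨k1, fun c hc => ?_, k2⟩
      rcases List.mem_cons.1 hc with rfl | hc
      · simp
      · have := i2 c hc
        simp; omega
    · obtain ⟨k1, k2⟩ := key a l.length (Or.inl (i2 (k, a) (by simp))) (by omega)
      refine ⟨k1, fun c hc => ?_, k2⟩
      rcases List.mem_cons.1 hc with rfl | hc
      · simp
      · have := i2 c (by simp [hc])
        simp; omega
    · obtain ⟨k1, k2⟩ := key a b (Or.inl (i2 (k, a) (by simp))) (Or.inl (i2 (k, b) (by simp)))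
      refine ⟨k1, fun c hc => ?_, k2⟩
      rcases List.mem_cons.1 hc with rfl | hc
      · simp
      · have := i2 c (by simp [hc])
        simp; omega

/-- Code of a list of expressions and formulas, last one first. -/
def fcode : List (Tm m ⊕ Fm m) → List (ℕ × ℤ)
  | [] => []
  | c :: F => fcode F ++ Sum.elim Tm.code Fm.code c

theorem run_parse (l : List (ℤ × ℤ)) : ∀ G S, run m l = some (G, S) →
    ∃ F : List (Tm m ⊕ Fm m), l = up (fcode F) ∧ S.map Prod.fst = F.map Sum.isRight := by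
  induction l using List.reverseRecOn with
  | nil =>
    intro G S h
    obtain ⟨rfl, rfl⟩ := Prod.mk.inj (Option.some.inj h)
    exact ⟨[], rfl, rfl⟩
  | append_singleton l e ih =>
    intro G' S' h
    rw [run_snoc, step, Option.bind_eq_some_iff] at h
    obtain ⟨⟨G, S⟩, h1, h2⟩ := h
    obtain ⟨F, rfl, hF⟩ := ih G S h1
    obtain ⟨t, z⟩ := e
    rcases step1_cases h2 with ⟨h3, rfl, rfl⟩ | ⟨rfl, k, a, r, rfl, h3, rfl, rfl⟩ |
      ⟨rfl, k, o, a, b, r, rfl, h3, rfl, rfl⟩
    · rcases h3 with ⟨rfl, h3, h4⟩ | rfl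
      · lift z to ℕ using h3
        exact ⟨.inl (.var ⟨z, by omega⟩) :: F, by simp [fcode, Tm.code], by simp [hF]⟩
      · exact ⟨.inl (.const z) :: F, by simp [fcode, Tm.code], by simp [hF]⟩
    · rcases F with _ | ⟨c, F⟩
      · simp at hF
      rcases h3 with ⟨rfl, rfl⟩ | ⟨rfl, rfl⟩ <;> rcases c with c | c <;> simp at hF
      · exact ⟨.inl (.neg c) :: F, by simp [fcode, Tm.code], by simp [hF]⟩
      · exact ⟨.inr (.not c) :: F, by simp [fcode, Fm.code], by simp [hF]⟩
    · rcases F with _ | ⟨c, _ | ⟨c', F⟩⟩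
      · simp at hF
      · simp at hF
      rcases h3 with ⟨h3, rfl, rfl⟩ | ⟨h3, rfl, rfl⟩ | ⟨h3, rfl, rfl⟩ <;>
        rcases c with c | c <;> rcases c' with c' | c' <;> simp at hF
      · rcases h3 with rfl | rfl
        · exact ⟨.inl (.add c' c) :: F, by simp [fcode, Tm.code], by simp [hF]⟩
        · exact ⟨.inl (.mul c' c) :: F, by simp [fcode, Tm.code], by simp [hF]⟩
      · rcases h3 with rfl | rfl | rfl
        · exact ⟨.inr (.eq c' c) :: F, by simp [fcode, Fm.code], by simp [hF]⟩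
        · exact ⟨.inr (.lt c' c) :: F, by simp [fcode, Fm.code], by simp [hF]⟩
        · exact ⟨.inr (.le c' c) :: F, by simp [fcode, Fm.code], by simp [hF]⟩
      · rcases h3 with rfl | rfl
        · exact ⟨.inr (.and c' c) :: F, by simp [fcode, Fm.code], by simp [hF]⟩
        · exact ⟨.inr (.or c' c) :: F, by simp [fcode, Fm.code], by simp [hF]⟩

end Pool.Agent.Lib.MP_ca1301_lc
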